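import Mathlib

set_option autoImplicit false

/-!
# The value at `x = -1` of the ternary partition subsum numerators (MP_6f4f36_nt)

For `n ≥ 1` let `T(n)` be the set of the partitions of `n` into powers of 3,
`h_λ = ∏_{i=1}^n (1 + x^i)^(⌊n/i⌋ - m_λ(i))`, let `G` be the monic greatest common divisor of the
`h_λ`, `λ ∈ T(n)`, in `ℤ[x]`, and `num = (∑ h_λ) / G`. Then `num(-1) = 3 ^ v_3(n!)`.

Proof. Let `B_j` be the cyclotomic polynomial of index `2 * 3^j`. Then `1 + x^(3^k)` is the product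
of the `B_j`, `j ≤ k`, so `∏ (1 + x^i)^(m_λ(i)) = ∏_j B_j^(c_j(λ))`, where `c_j(λ) ≤ ⌊n/3^j⌋` is the
number of the parts `≥ 3^j`. Hence `h_λ = G U_λ` with `U_λ = ∏_j B_j^(⌊n/3^j⌋ - c_j(λ))` and a monic
`G` that does not depend on `λ`. The partition with `⌊n/3^j⌋` parts `3^j` and the other parts equal to
1 shows that `B_j` does not divide all `U_λ`, so the greatest common divisor of the `U_λ` is 1. At
`x = -1` only `λ = (1, …, 1)` gives a nonzero `U_λ`, and `B_j(-1) = 3` for `j ≥ 1`.
-/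

namespace Pool.Agent.Results.MP_6f4f36_nt.TernarySubsum

open Polynomial

open Classical in
/-- `T(n)`: the partitions of `n` all of whose parts are powers of `3` -/
noncomputable def ternary (n : ℕ) : Finset n.Partition :=
  Finset.univ.filter fun l => ∀ i ∈ l.parts, ∃ k : ℕ, i = 3 ^ k

lemma mem_ternary {n : ℕ} {l : n.Partition} :
    l ∈ ternary n ↔ ∀ i ∈ l.parts, ∃ k : ℕ, i = 3 ^ k := by
  simp [ternary]

/-- `h_λ = ∏_{i=1}^n (1 + x^i)^(⌊n/i⌋ - m_λ(i))`, `m_λ(i)` being the multiplicity of `i` in `λ` -/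
noncomputable def h {n : ℕ} (l : n.Partition) : ℤ[X] :=
  ∏ i ∈ Finset.Icc 1 n, (1 + X ^ i) ^ (n / i - l.parts.count i)

/-- `G` is a monic greatest common divisor in `ℤ[x]` of the `h_λ`, `λ ∈ T(n)` -/
def IsMonicGCD (n : ℕ) (G : ℤ[X]) : Prop :=
  G.Monic ∧ (∀ l ∈ ternary n, G ∣ h l) ∧ ∀ D : ℤ[X], (∀ l ∈ ternary n, D ∣ h l) → D ∣ G

/-- the cyclotomic polynomial of index `2 * 3 ^ j` -/
noncomputable def B (j : ℕ) : ℤ[X] := cyclotomic (2 * 3 ^ j) ℤ

lemma B_zero : B 0 = X + 1 := by
  rw [B, pow_zero, mul_one, cyclotomic_two]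

lemma B_monic (j : ℕ) : (B j).Monic := cyclotomic.monic _ _

lemma B_one : B 1 = X ^ 2 - X + 1 := by
  have h1 : (X ^ 6 - 1 : ℤ[X]) = ∏ i ∈ Nat.divisors 6, cyclotomic i ℤ :=
    (prod_cyclotomic_eq_X_pow_sub_one (by norm_num) ℤ).symm
  have h2 : Nat.divisors 6 = {1, 2, 3, 6} := by decide
  rw [h2] at h1
  rw [Finset.prod_insert (by decide), Finset.prod_insert (by decide),
    Finset.prod_insert (by decide), Finset.prod_singleton, cyclotomic_one, cyclotomic_two,
    cyclotomic_three] at h1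
  have h3 : ((X - 1) * (X + 1) * (X ^ 2 + X + 1) : ℤ[X]) ≠ 0 := by
    apply Monic.ne_zero
    apply Monic.mul
    · apply Monic.mul
      · exact monic_X_sub_C (1 : ℤ)
      · exact monic_X_add_C (1 : ℤ)
    · rw [← cyclotomic_three]
      exact cyclotomic.monic _ _
  have h4 : B 1 = cyclotomic 6 ℤ := by rw [B]; norm_num
  rw [h4]
  apply mul_left_cancel₀ h3
  rw [show ((X - 1) * (X + 1) * (X ^ 2 + X + 1) * cyclotomic 6 ℤ : ℤ[X]) =
    (X - 1) * ((X + 1) * ((X ^ 2 + X + 1) * cyclotomic 6 ℤ)) by ring, ← h1]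
  ring

lemma B_succ (j : ℕ) : B (j + 1) = (X ^ 3 ^ j) ^ 2 - X ^ 3 ^ j + 1 := by
  induction j with
  | zero => rw [zero_add, B_one]; simp
  | succ j ih =>
    have h1 : B (j + 1 + 1) = expand ℤ 3 (B (j + 1)) := by
      rw [B, B, cyclotomic_expand_eq_cyclotomic Nat.prime_three
        (Dvd.dvd.mul_left (dvd_pow_self 3 (Nat.succ_ne_zero j)) 2)]
      congr 1
      rw [mul_assoc, ← pow_succ]
    rw [h1, ih]
    simp only [map_add, map_sub, map_pow, expand_X, map_one]
    rw [← pow_mul, ← pow_mul, ← pow_mul, ← pow_mul, pow_succ 3 j]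
    ring_nf

lemma one_add_X_pow (k : ℕ) : (1 + X ^ 3 ^ k : ℤ[X]) = ∏ j ∈ Finset.range (k + 1), B j := by
  induction k with
  | zero => simp [B_zero, add_comm]
  | succ k ih =>
    rw [Finset.prod_range_succ, ← ih, B_succ, pow_succ 3 k, pow_mul]
    ring

/-- the number of parts that are at least `3 ^ j` -/
def c (s : Multiset ℕ) (j : ℕ) : ℕ := (s.filter fun i => 3 ^ j ≤ i).card

lemma sp_eq (N : ℕ) (s : Multiset ℕ) (hs : ∀ i ∈ s, ∃ k : ℕ, i = 3 ^ k) (hN : ∀ i ∈ s, i < 3 ^ N) :
    (s.map fun i => (1 + X ^ i : ℤ[X])).prod = ∏ j ∈ Finset.range N, B j ^ c s j := by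
  induction s using Multiset.induction_on with
  | empty => simp [c]
  | cons a s ih =>
    rw [Multiset.map_cons, Multiset.prod_cons, ih (fun i hi => hs i (Multiset.mem_cons_of_mem hi))
      (fun i hi => hN i (Multiset.mem_cons_of_mem hi))]
    obtain ⟨k, hk⟩ := hs a (Multiset.mem_cons_self a s)
    have hkN : k < N := by
      have := hN a (Multiset.mem_cons_self a s)
      rw [hk] at this
      exact (Nat.pow_lt_pow_iff_right (by norm_num)).1 this
    have h1 : (1 + X ^ a : ℤ[X]) = ∏ j ∈ Finset.range N, if j ≤ k then B j else 1 := by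
      rw [hk, one_add_X_pow, ← Finset.prod_filter]
      apply Finset.prod_congr _ (fun _ _ => rfl)
      ext j
      simp only [Finset.mem_range, Finset.mem_filter]
      omega
    rw [h1, ← Finset.prod_mul_distrib]
    apply Finset.prod_congr rfl
    intro j _
    have h2 : c (a ::ₘ s) j = (if j ≤ k then 1 else 0) + c s j := by
      unfold c
      by_cases hjk : j ≤ k
      · have h3 : 3 ^ j ≤ a := by rw [hk]; exact Nat.pow_le_pow_right (by norm_num) hjk
        rw [Multiset.filter_cons_of_pos _ h3, Multiset.card_cons, if_pos hjk, add_comm]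
      · have h3 : ¬ 3 ^ j ≤ a := by
          rw [hk, not_le]
          exact Nat.pow_lt_pow_right (by norm_num) (by omega)
        rw [Multiset.filter_cons_of_neg _ h3, if_neg hjk, zero_add]
    rw [h2, pow_add]
    split_ifs <;> simp

lemma c_mul_le (s : Multiset ℕ) (j : ℕ) : c s j * 3 ^ j ≤ s.sum := by
  induction s using Multiset.induction_on with
  | empty => simp [c]
  | cons a s ih =>
    rw [Multiset.sum_cons]
    unfold c at *
    by_cases h3 : 3 ^ j ≤ a
    · rw [Multiset.filter_cons_of_pos _ h3, Multiset.card_cons]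
      nlinarith
    · rw [Multiset.filter_cons_of_neg _ h3]
      exact ih.trans (Nat.le_add_left _ _)

lemma c_le {n : ℕ} (l : n.Partition) (j : ℕ) : c l.parts j ≤ n / 3 ^ j := by
  rw [Nat.le_div_iff_mul_le (by positivity)]
  have := c_mul_le l.parts j
  rwa [l.parts_sum] at this

/-- `U_λ = ∏_j B_j^(⌊n/3^j⌋ - c_j(λ))` -/
noncomputable def U {n : ℕ} (l : n.Partition) : ℤ[X] :=
  ∏ j ∈ Finset.range (n + 1), B j ^ (n / 3 ^ j - c l.parts j)

/-- the least common multiple `∏_j B_j^⌊n/3^j⌋` of the subsum polynomials -/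
noncomputable def L (n : ℕ) : ℤ[X] := ∏ j ∈ Finset.range (n + 1), B j ^ (n / 3 ^ j)

/-- the product `∏_{i ≤ n} (1 + x^i)^⌊n/i⌋` -/
noncomputable def H (n : ℕ) : ℤ[X] := ∏ i ∈ Finset.Icc 1 n, (1 + X ^ i) ^ (n / i)

/-- the subsum polynomial -/
noncomputable def sp {n : ℕ} (l : n.Partition) : ℤ[X] :=
  ∏ i ∈ Finset.Icc 1 n, (1 + X ^ i) ^ l.parts.count i

lemma part_le {n : ℕ} (l : n.Partition) {i : ℕ} (hi : i ∈ l.parts) : i ≤ n := by
  have := Multiset.single_le_sum (fun x _ => Nat.zero_le x) i hi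
  rwa [l.parts_sum] at this

lemma count_le {n : ℕ} (l : n.Partition) {i : ℕ} (hi : 0 < i) : l.parts.count i ≤ n / i := by
  rw [Nat.le_div_iff_mul_le hi]
  have h1 : Multiset.replicate (l.parts.count i) i ≤ l.parts :=
    Multiset.le_count_iff_replicate_le.1 le_rfl
  obtain ⟨u, hu⟩ := Multiset.le_iff_exists_add.1 h1
  have h3 := l.parts_sum
  have h4 := congrArg Multiset.sum hu
  rw [Multiset.sum_add, Multiset.sum_replicate, smul_eq_mul, h3] at h4
  omega

lemma monic_one_add {i : ℕ} (hi : 0 < i) : (1 + X ^ i : ℤ[X]).Monic := by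
  rw [add_comm]
  exact monic_X_pow_add_C (1 : ℤ) hi.ne'

lemma h_mul_sp {n : ℕ} (l : n.Partition) : h l * sp l = H n := by
  unfold h sp H
  rw [← Finset.prod_mul_distrib]
  apply Finset.prod_congr rfl
  intro i hi
  rw [← pow_add, Nat.sub_add_cancel (count_le l (Finset.mem_Icc.1 hi).1)]

lemma sp_eq' {n : ℕ} (l : n.Partition) (hl : l ∈ ternary n) :
    sp l = ∏ j ∈ Finset.range (n + 1), B j ^ c l.parts j := by
  rw [← sp_eq (n + 1) l.parts (mem_ternary.1 hl) (fun i hi => by
    have h1 := part_le l hi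
    have h2 : n + 1 < 3 ^ (n + 1) := Nat.lt_pow_self (by norm_num)
    omega)]
  unfold sp
  rw [Finset.prod_multiset_map_count]
  symm
  apply Finset.prod_subset
  · intro i hi
    rw [Multiset.mem_toFinset] at hi
    exact Finset.mem_Icc.2 ⟨l.parts_pos hi, part_le l hi⟩
  · intro i _ hi
    rw [Multiset.mem_toFinset] at hi
    rw [Multiset.count_eq_zero_of_notMem hi, pow_zero]

lemma U_mul_sp {n : ℕ} (l : n.Partition) (hl : l ∈ ternary n) : U l * sp l = L n := by
  rw [sp_eq' l hl, U, L, ← Finset.prod_mul_distrib]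
  apply Finset.prod_congr rfl
  intro j _
  rw [← pow_add, Nat.sub_add_cancel (c_le l j)]

lemma L_dvd_H (n : ℕ) : L n ∣ H n := by
  unfold L H
  have h1 : ∏ j ∈ Finset.range (n + 1), B j ^ (n / 3 ^ j) =
      ∏ j ∈ (Finset.range (n + 1)).filter (fun j => 3 ^ j ≤ n), B j ^ (n / 3 ^ j) := by
    rw [Finset.prod_filter]
    apply Finset.prod_congr rfl
    intro j _
    split_ifs with h2
    · rfl
    · rw [Nat.div_eq_of_lt (by omega), pow_zero]
  rw [h1]
  have h2 : ∏ j ∈ (Finset.range (n + 1)).filter (fun j => 3 ^ j ≤ n), B j ^ (n / 3 ^ j) ∣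
      ∏ j ∈ (Finset.range (n + 1)).filter (fun j => 3 ^ j ≤ n), (1 + X ^ 3 ^ j : ℤ[X]) ^ (n / 3 ^ j) := by
    apply Finset.prod_dvd_prod_of_dvd
    intro j _
    apply pow_dvd_pow_of_dvd
    rw [one_add_X_pow]
    exact Finset.dvd_prod_of_mem _ (Finset.mem_range.2 (Nat.lt_succ_self j))
  refine h2.trans ?_
  rw [← Finset.prod_image (f := fun i => (1 + X ^ i : ℤ[X]) ^ (n / i)) (g := fun j => 3 ^ j)]
  · apply Finset.prod_dvd_prod_of_subset
    intro i hi
    obtain ⟨j, hj, rfl⟩ := Finset.mem_image.1 hi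
    exact Finset.mem_Icc.2 ⟨Nat.one_le_pow _ _ (by norm_num), (Finset.mem_filter.1 hj).2⟩
  · intro a _ b _ hab
    exact Nat.pow_right_injective (by norm_num : 2 ≤ 3) hab

lemma H_monic (n : ℕ) : (H n).Monic := by
  unfold H
  apply monic_prod_of_monic
  intro i hi
  exact (monic_one_add (Finset.mem_Icc.1 hi).1).pow _

lemma L_monic (n : ℕ) : (L n).Monic := by
  unfold L
  apply monic_prod_of_monic
  intro i _
  exact (B_monic i).pow _

lemma sp_monic {n : ℕ} (l : n.Partition) : (sp l).Monic := by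
  unfold sp
  apply monic_prod_of_monic
  intro i hi
  exact (monic_one_add (Finset.mem_Icc.1 hi).1).pow _

/-- the partition with `⌊n/3^j⌋` parts `3^j` and all other parts equal to 1 -/
def part (n j : ℕ) : n.Partition where
  parts := Multiset.replicate (n / 3 ^ j) (3 ^ j) + Multiset.replicate (n % 3 ^ j) 1
  parts_pos := by
    intro i hi
    rw [Multiset.mem_add] at hi
    rcases hi with hi | hi
    · rw [Multiset.eq_of_mem_replicate hi]; positivity
    · rw [Multiset.eq_of_mem_replicate hi]; norm_num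
  parts_sum := by
    rw [Multiset.sum_add, Multiset.sum_replicate, Multiset.sum_replicate, smul_eq_mul, smul_eq_mul,
      mul_one]
    exact Nat.div_add_mod' n (3 ^ j)

lemma part_mem (n j : ℕ) : part n j ∈ ternary n := by
  refine mem_ternary.2 ?_
  intro i hi
  simp only [part, Multiset.mem_add] at hi
  rcases hi with hi | hi
  · exact ⟨j, Multiset.eq_of_mem_replicate hi⟩
  · exact ⟨0, by rw [Multiset.eq_of_mem_replicate hi, pow_zero]⟩

lemma c_part (n j : ℕ) : c (part n j).parts j ≥ n / 3 ^ j := by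
  unfold c
  simp only [part]
  rw [Multiset.filter_add, Multiset.card_add]
  have h1 : Multiset.filter (fun i => 3 ^ j ≤ i) (Multiset.replicate (n / 3 ^ j) (3 ^ j)) =
      Multiset.replicate (n / 3 ^ j) (3 ^ j) := by
    rw [Multiset.filter_eq_self]
    intro a ha
    rw [Multiset.eq_of_mem_replicate ha]
  rw [h1, Multiset.card_replicate]
  omega

lemma B_not_dvd {i j : ℕ} (hij : i ≠ j) : ¬ B i ∣ B j := by
  intro hd
  have hi : Irreducible (B i) := cyclotomic.irreducible (by positivity)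
  have hj : Irreducible (B j) := cyclotomic.irreducible (by positivity)
  have h1 : B i = B j := eq_of_monic_of_associated (B_monic i) (B_monic j)
    (hi.associated_of_dvd hj hd)
  have h2 := cyclotomic_injective (R := ℤ) h1
  apply hij
  have h3 : 3 ^ i = 3 ^ j := by omega
  exact Nat.pow_right_injective (by norm_num : 2 ≤ 3) h3

lemma gcd_prop {n : ℕ} (G : ℤ[X]) (hG : ∀ l ∈ ternary n, h l = G * U l) (D : ℤ[X])
    (hD : ∀ l ∈ ternary n, D ∣ h l) : D ∣ G := by
  let _ : NormalizedGCDMonoid ℤ[X] := UniqueFactorizationMonoid.toNormalizedGCDMonoid ℤ[X]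
  have h1 : D ∣ (ternary n).gcd fun l => G * U l :=
    Finset.dvd_gcd fun l hl => by rw [← hG l hl]; exact hD l hl
  have h2 := (Finset.gcd_mul_left' (s := ternary n) (f := fun l => U l) G).dvd
  have h3 : IsUnit ((ternary n).gcd fun l => U l) := by
    by_contra hu
    have hne : (ternary n).gcd (fun l => U l) ≠ 0 := by
      intro h0
      rw [Finset.gcd_eq_zero_iff] at h0
      have h4 := h0 _ (part_mem n 0)
      have h5 := U_mul_sp _ (part_mem n 0)
      rw [h4, zero_mul] at h5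
      exact (L_monic n).ne_zero h5.symm
    obtain ⟨q, hq, hqd⟩ := WfDvdMonoid.exists_irreducible_factor hu hne
    have hqp : Prime q := hq.prime
    have h4 : q ∣ U (part n 0) := hqd.trans (Finset.gcd_dvd (part_mem n 0))
    unfold U at h4
    obtain ⟨j, hj, hqj⟩ := hqp.exists_mem_finset_dvd h4
    have h5 : q ∣ B j := hqp.dvd_of_dvd_pow hqj
    have hBj : Irreducible (B j) := cyclotomic.irreducible (by positivity)
    have h6 : Associated q (B j) := hq.associated_of_dvd hBj h5
    have h7 : B j ∣ U (part n j) := h6.symm.dvd.trans (hqd.trans (Finset.gcd_dvd (part_mem n j)))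
    unfold U at h7
    obtain ⟨i, hi, hBi⟩ := hBj.prime.exists_mem_finset_dvd h7
    by_cases hij : i = j
    · subst hij
      have h8 := c_part n i
      rw [Nat.sub_eq_zero_of_le h8, pow_zero] at hBi
      exact hBj.not_isUnit (isUnit_of_dvd_one hBi)
    · exact B_not_dvd (Ne.symm hij) (hBj.prime.dvd_of_dvd_pow hBi)
  obtain ⟨u, hu⟩ := h3
  have h4 : D ∣ G * (ternary n).gcd fun l => U l := h1.trans h2
  rw [← hu] at h4
  exact (Units.dvd_mul_right).1 h4

lemma eval_B_zero : (B 0).eval (-1) = 0 := by rw [B_zero]; simp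

lemma eval_B_succ (j : ℕ) : (B (j + 1)).eval (-1) = 3 := by
  rw [B_succ]
  have h1 : ((-1 : ℤ)) ^ 3 ^ j = -1 := Odd.neg_one_pow (Odd.pow (by decide))
  simp only [eval_add, eval_sub, eval_pow, eval_X, eval_one, h1]
  norm_num

lemma eval_U_one (n : ℕ) :
    (U (part n 0)).eval (-1) = 3 ^ padicValNat 3 n.factorial := by
  have : Fact (Nat.Prime 3) := ⟨Nat.prime_three⟩
  have h1 : Nat.log 3 n < n + 1 := (Nat.log_le_self 3 n).trans_lt (Nat.lt_succ_self n)
  rw [padicValNat_factorial h1, U, eval_prod, Finset.range_eq_Ico,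
    Finset.prod_eq_prod_Ico_succ_bot (Nat.succ_pos n), ← Finset.prod_pow_eq_pow_sum]
  have h2 : c (part n 0).parts 0 = n := by
    have h3 := c_part n 0
    have h4 := c_le (part n 0) 0
    rw [pow_zero, Nat.div_one] at h3 h4
    omega
  rw [h2, pow_zero, Nat.div_one, Nat.sub_self, pow_zero, eval_one, one_mul]
  apply Finset.prod_congr rfl
  intro j hj
  obtain ⟨i, rfl⟩ : ∃ i, j = i + 1 := ⟨j - 1, by have := (Finset.mem_Ico.1 hj).1; omega⟩
  have h3 : c (part n 0).parts (i + 1) = 0 := by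
    unfold c
    simp only [part, pow_zero, Nat.div_one, Nat.mod_one, Multiset.replicate_zero, add_zero]
    rw [Multiset.card_eq_zero, Multiset.filter_eq_nil]
    intro a ha
    rw [Multiset.eq_of_mem_replicate ha, not_le]
    exact Nat.one_lt_pow (Nat.succ_ne_zero i) (by norm_num)
  rw [h3, Nat.sub_zero, eval_pow, eval_B_succ]

lemma eval_U_ne (n : ℕ) (l : n.Partition) (hl : l ≠ part n 0) : (U l).eval (-1) = 0 := by
  have h1 : c l.parts 0 < n := by
    have h2 := c_le l 0
    rw [pow_zero, Nat.div_one] at h2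
    rcases h2.lt_or_eq with h3 | h3
    · exact h3
    · exfalso
      apply hl
      apply Nat.Partition.ext
      have h4 : c l.parts 0 = l.parts.card := by
        unfold c
        rw [Multiset.filter_eq_self.2]
        intro a ha
        rw [pow_zero]
        exact l.parts_pos ha
      have h5 : ∀ a ∈ l.parts, a = 1 := by
        intro a ha
        by_contra hne
        have h6 : 2 ≤ a := by have := l.parts_pos ha; omega
        obtain ⟨t, ht⟩ := Multiset.exists_cons_of_mem ha
        have h7 := l.parts_sum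
        have h8 : t.card ≤ t.sum := by
          have : ∀ x ∈ t, 1 ≤ x := fun x hx =>
            l.parts_pos (by rw [ht]; exact Multiset.mem_cons_of_mem hx)
          have h9 := Multiset.card_nsmul_le_sum this
          simpa using h9
        rw [ht, Multiset.sum_cons] at h7
        rw [h4, ht, Multiset.card_cons] at h3
        omega
      rw [Multiset.eq_replicate.2 ⟨rfl, h5⟩]
      simp only [part, pow_zero, Nat.div_one, Nat.mod_one, Multiset.replicate_zero, add_zero]
      rw [← h4, h3]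
  unfold U
  rw [eval_prod]
  apply Finset.prod_eq_zero (Finset.mem_range.2 (Nat.succ_pos n))
  rw [eval_pow, eval_B_zero, pow_zero, Nat.div_one, zero_pow]
  omega

lemma main (n : ℕ) : ∃ G num : ℤ[X], IsMonicGCD n G ∧ G * num = ∑ l ∈ ternary n, h l ∧
    num.eval (-1) = 3 ^ padicValNat 3 n.factorial := by
  obtain ⟨G, hG⟩ := L_dvd_H n
  have hGm : G.Monic := (L_monic n).of_mul_monic_left (by rw [← hG]; exact H_monic n)
  have h1 : ∀ l ∈ ternary n, h l = G * U l := by
    intro l hl
    apply mul_right_cancel₀ (sp_monic l).ne_zero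
    rw [h_mul_sp, mul_assoc, U_mul_sp l hl, hG, mul_comm]
  refine ⟨G, ∑ l ∈ ternary n, U l, ⟨hGm, fun l hl => ⟨_, h1 l hl⟩, gcd_prop G h1⟩, ?_, ?_⟩
  · rw [Finset.mul_sum]
    exact Finset.sum_congr rfl fun l hl => (h1 l hl).symm
  · rw [eval_finsetSum, Finset.sum_eq_single (part n 0)]
    · exact eval_U_one n
    · intro l _ hl
      exact eval_U_ne n l hl
    · intro h2
      exact absurd (part_mem n 0) h2

lemma val_eq (n i : ℕ) (hi : i < 3) :
    padicValNat 3 (3 * n + i).factorial = padicValNat 3 (3 * n).factorial := by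
  have : Fact (Nat.Prime 3) := ⟨Nat.prime_three⟩
  have h1 : Nat.log 3 (3 * n + i) < 3 * n + i + 1 :=
    (Nat.log_le_self 3 _).trans_lt (Nat.lt_succ_self _)
  have h2 : Nat.log 3 (3 * n) < 3 * n + i + 1 := (Nat.log_le_self 3 _).trans_lt (by omega)
  rw [padicValNat_factorial h1, padicValNat_factorial h2]
  apply Finset.sum_congr rfl
  intro j hj
  obtain ⟨k, rfl⟩ : ∃ k, j = k + 1 := ⟨j - 1, by have := (Finset.mem_Ico.1 hj).1; omega⟩
  rw [pow_succ', ← Nat.div_div_eq_div_mul, ← Nat.div_div_eq_div_mul]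
  congr 1
  omega

theorem result : ∃ s : ℕ → ℤ,
    (∀ n, 1 ≤ n → ∃ G num : ℤ[X], IsMonicGCD n G ∧ (∀ G', IsMonicGCD n G' → G' = G) ∧
      G * num = ∑ l ∈ ternary n, h l ∧ s n = num.eval (-1)) ∧
    s 1 = 1 ∧ s 2 = 1 ∧
    ∀ n, 1 ≤ n → s (3 * n) = 3 ^ padicValNat 3 (3 * n).factorial ∧
      s (3 * n + 1) = 3 ^ padicValNat 3 (3 * n).factorial ∧
      s (3 * n + 2) = 3 ^ padicValNat 3 (3 * n).factorial := by
  refine ⟨fun n => 3 ^ padicValNat 3 n.factorial, ?_, ?_, ?_, ?_⟩
  · intro n _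
    obtain ⟨G, num, h1, h2, h3⟩ := main n
    refine ⟨G, num, h1, ?_, h2, h3.symm⟩
    intro G' hG'
    exact eq_of_monic_of_associated hG'.1 h1.1
      (associated_of_dvd_dvd (h1.2.2 _ hG'.2.1) (hG'.2.2 _ h1.2.1))
  · have := val_eq 0 1 (by norm_num)
    simp only [mul_zero, zero_add, Nat.factorial_zero, padicValNat_one_right] at this
    show (3 : ℤ) ^ padicValNat 3 (Nat.factorial 1) = 1
    rw [this, pow_zero]
  · have := val_eq 0 2 (by norm_num)
    simp only [mul_zero, zero_add, Nat.factorial_zero, padicValNat_one_right] at this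
    show (3 : ℤ) ^ padicValNat 3 (Nat.factorial 2) = 1
    rw [this, pow_zero]
  · intro n _
    refine ⟨rfl, ?_, ?_⟩
    · show (3 : ℤ) ^ padicValNat 3 (Nat.factorial (3 * n + 1)) = _
      rw [val_eq n 1 (by norm_num)]
    · show (3 : ℤ) ^ padicValNat 3 (Nat.factorial (3 * n + 2)) = _
      rw [val_eq n 2 (by norm_num)]

end Pool.Agent.Results.MP_6f4f36_nt.TernarySubsum
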